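import Mathlib
import Pool.Agent.Helper669.SetMap2

/-!
# GCH and (ℵ₃, 4, 2) ↛ ℵ₁

The forcing notion consists of the finite partial functions from `ω₁ × ω₁` to `ω` (it adds `ℵ₁`
many Cohen reals). It preserves cardinals and the generalized continuum hypothesis, and forces
the negative relation `(ℵ₃, 4, 2) ↛ ℵ₁` over any ground model.
-/

namespace Pool.Agent.Results.MP_7295f2_lc.CohenMapping

open Cardinal Pool.Agent.Helper669.Forcing Pool.Agent.Helper669.SetMap2

/-- There is a forcing notion `P` such that every condition forces that all cardinals of the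
ground model are still cardinals and that `(ℵ₃, 4, 2) ↛ ℵ₁`; and if the generalized continuum
hypothesis holds in the ground model, then every condition forces the generalized continuum
hypothesis. -/
theorem result : ∃ (P : Type) (_ : Preorder P), Nonempty P ∧ ∀ p : P,
    p ∈ CardinalsPreserved.{0, 0} P ∧
      p ∈ NoFreeSet.{0, 0} P (ℵ_ 3) 4 ℵ₁ ∧
        ((∀ μ : Cardinal.{0}, ℵ₀ ≤ μ → 2 ^ μ = Order.succ μ) → p ∈ ForcesGCH.{0, 0} P) := by
  refine ⟨Pool.Agent.Helper669.SetMap.Fn (Pool.Agent.Helper669.SetMap.K1 × Pool.Agent.Helper669.SetMap.K1), inferInstance, inferInstance,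
    fun p => ⟨cardinalsPreserved p, ?_, fun h => forcesGCH ?_ h p⟩⟩
  · have h := noFreeSet 2 p
    have h3 : (((2 : ℕ) : Ordinal.{0}) + 1) = 3 := by norm_num
    rw [h3] at h
    exact h
  · have h1 : #Pool.Agent.Helper669.SetMap.K1 = ℵ₁ := by rw [mk_toType, card_ord]
    rw [mk_prod, lift_id, h1, mul_eq_self (aleph0_le_aleph 1), ← succ_aleph0]
    exact Order.succ_le_of_lt (cantor ℵ₀)

end Pool.Agent.Results.MP_7295f2_lc.CohenMapping
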